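import Pool.Agent.Helper49.LT.StA

/-!
# Project LT, module SUB: the substitution `φ(t) = arg zh x t`
-/

set_option autoImplicit false

open MeasureTheory Set Filter Metric

namespace Pool.Agent.Helper16.LT

open Helper49.LT Helper97.CB

/-- `1 + v₁ + v₂` for `v = rot t x` -/
noncomputable def fc (x : ℂ × ℂ) (t : ℝ) : ℂ := 1 + (rot t x).1 + (rot t x).2

/-- its derivative -/
noncomputable def fd (x : ℂ × ℂ) (t : ℝ) : ℂ :=
  -3 * Complex.I * (rot t x).1 + -5 * Complex.I * (rot t x).2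

theorem fc_der (x : ℂ × ℂ) (t : ℝ) : HasDerivAt (fc x) (fd x t) t := by
  have h1 := (hasDerivAt_ee (-3) t).mul_const x.1
  have h2 := (hasDerivAt_ee (-5) t).mul_const x.2
  have h := (h1.const_add 1).add h2
  have e : fd x t = ((-3 : ℝ) : ℂ) * Complex.I * ee (-3 * t) * x.1 +
      ((-5 : ℝ) : ℂ) * Complex.I * ee (-5 * t) * x.2 := by
    unfold fd rot
    push_cast
    ring
  rw [e]
  exact h

theorem fc_cont (x : ℂ × ℂ) : Continuous (fc x) := by
  have h := continuous_rot x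
  exact (continuous_const.add (continuous_fst.comp h)).add (continuous_snd.comp h)

theorem fd_cont (x : ℂ × ℂ) : Continuous (fd x) := by
  have h := continuous_rot x
  exact (continuous_const.mul (continuous_fst.comp h)).add
    (continuous_const.mul (continuous_snd.comp h))

theorem fc_re {x : ℂ × ℂ} (hx : ‖x‖ ≤ 1 / 20) (t : ℝ) : 0 < (fc x t).re := by
  have h1 : |(rot t x).1.re| ≤ 1 / 20 :=
    (Complex.abs_re_le_norm _).trans ((norm_rot_fst t x).le.trans ((fst_le x).trans hx))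
  have h2 : |(rot t x).2.re| ≤ 1 / 20 :=
    (Complex.abs_re_le_norm _).trans ((norm_rot_snd t x).le.trans ((snd_le x).trans hx))
  have h3 : (fc x t).re = 1 + (rot t x).1.re + (rot t x).2.re := by
    simp [fc]
  rw [h3]
  have h4 := (abs_le.1 h1).1
  have h5 := (abs_le.1 h2).1
  linarith

theorem fc_slit {x : ℂ × ℂ} (hx : ‖x‖ ≤ 1 / 20) (t : ℝ) : fc x t ∈ Complex.slitPlane :=
  Complex.mem_slitPlane_iff.2 (Or.inl (fc_re hx t))

theorem fc_ne {x : ℂ × ℂ} (hx : ‖x‖ ≤ 1 / 20) (t : ℝ) : fc x t ≠ 0 := by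
  intro h
  have h1 := fc_re hx t
  rw [h] at h1
  simp at h1

/-- the argument -/
noncomputable def ph (x : ℂ × ℂ) (t : ℝ) : ℝ := t + (Complex.log (fc x t)).im

/-- its derivative -/
noncomputable def pd (x : ℂ × ℂ) (t : ℝ) : ℝ := 1 + (fd x t / fc x t).im

theorem ph_der {x : ℂ × ℂ} (hx : ‖x‖ ≤ 1 / 20) (t : ℝ) : HasDerivAt (ph x) (pd x t) t := by
  have h1 := (fc_der x t).clog_real (fc_slit hx t)
  have h2 := Complex.imCLM.hasFDerivAt.comp_hasDerivAt t h1
  exact (hasDerivAt_id t).add h2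

theorem pd_cont {x : ℂ × ℂ} (hx : ‖x‖ ≤ 1 / 20) : Continuous (pd x) := by
  have h1 : Continuous fun t => fd x t / fc x t := (fd_cont x).div (fc_cont x) (fc_ne hx)
  unfold pd
  exact continuous_const.add (Complex.continuous_im.comp h1)

theorem ph_two_pi (x : ℂ × ℂ) : ph x (2 * Real.pi) = ph x 0 + 2 * Real.pi := by
  have h1 : fc x (2 * Real.pi) = fc x 0 := by
    have h2 := rot_per 0 x
    rw [zero_add] at h2
    unfold fc
    rw [h2]
  unfold ph
  rw [h1]
  ring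

theorem pd_eq {x : ℂ × ℂ} (hx : ‖x‖ ≤ 1 / 20) (t : ℝ) :
    pd x t = h0 (rot t x) / ‖fc x t‖ ^ 2 := by
  have hne : Complex.normSq (fc x t) ≠ 0 := fun h => fc_ne hx t (Complex.normSq_eq_zero.1 h)
  rw [← Complex.normSq_eq_norm_sq]
  unfold pd
  rw [Complex.div_im, eq_div_iff hne, add_mul, sub_mul, div_mul_cancel₀ _ hne,
    div_mul_cancel₀ _ hne, Complex.normSq_apply]
  simp only [fc, fd, h0, k3, s3, k5, s5, Complex.add_re, Complex.add_im, Complex.one_re,
    Complex.one_im, Complex.mul_re, Complex.mul_im, Complex.neg_re, Complex.neg_im,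
    Complex.I_re, Complex.I_im]
  norm_num
  ring

theorem zh_ph (x : ℂ × ℂ) (t : ℝ) : zh x t = ((‖fc x t‖ : ℝ) : ℂ) * ee (ph x t) := by
  have h1 : ee (ph x t) = ee t * Complex.exp ((Complex.arg (fc x t) : ℂ) * Complex.I) := by
    unfold ph
    rw [ee_add, Complex.log_im]
    rfl
  have h2 := Complex.norm_mul_exp_arg_mul_I (fc x t)
  rw [zh_eq, h1, mul_left_comm, h2]
  rfl

theorem hSUB : StSub := by
  intro K x j hK hb hx
  have hK0 : K ∈ nhds (0 : ℂ) :=
    mem_of_superset (closedBall_mem_nhds (0 : ℂ) (by norm_num)) hb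
  have hgc : Continuous (gauge K) := continuous_gauge hK.1 hK0
  have hgp : ∀ φ : ℝ, gauge K (ee φ) ≠ 0 := by
    intro φ
    have h1 := (gauge_pos (absorbent_nhds_zero hK0)
      ((NormedSpace.isVonNBounded_iff ℝ).2 hK.2.1.isBounded)).2 (ee_ne φ)
    exact h1.ne'
  obtain ⟨G, hG⟩ : ∃ G : ℝ → ℂ, G = fun φ : ℝ =>
    (((gauge K (ee φ))⁻¹ ^ (j + 2) : ℝ) : ℂ) * ee φ ^ j := ⟨_, rfl⟩
  have hGc : Continuous G := by
    rw [hG]
    have h1 : Continuous fun φ : ℝ => (gauge K (ee φ))⁻¹ := by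
      exact (hgc.comp continuous_ee).inv₀ hgp
    exact (Complex.continuous_ofReal.comp (h1.pow (j + 2))).mul (continuous_ee.pow j)
  have hGp : Function.Periodic G (2 * Real.pi) := by
    intro φ
    rw [hG]
    simp only [ee_per]
  have hsub := intervalIntegral.integral_deriv_smul_comp (a := 0) (b := 2 * Real.pi)
    (f := ph x) (f' := pd x) (g := G) (fun t _ => ph_der hx t) (pd_cont hx).continuousOn hGc
  rw [ph_two_pi, hGp.intervalIntegral_add_eq (ph x 0) 0, zero_add] at hsub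
  have hL : ∫ φ in (0 : ℝ)..(2 * Real.pi), (((gauge K (ee φ))⁻¹ ^ (j + 2) : ℝ) : ℂ) * ee φ ^ j =
      ∫ φ in (0 : ℝ)..(2 * Real.pi), G φ := by
    rw [hG]
  rw [hL, ← hsub]
  apply intervalIntegral.integral_congr
  intro t _
  have hn : ‖fc x t‖ ≠ 0 := fun h => fc_ne hx t (norm_eq_zero.1 h)
  have hg1 : gauge K (zh x t) = ‖fc x t‖ * gauge K (ee (ph x t)) := by
    rw [zh_ph, ← Complex.real_smul, gauge_smul_of_nonneg (norm_nonneg _), smul_eq_mul]
  have key : pd x t * (gauge K (ee (ph x t)))⁻¹ ^ (j + 2) =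
      (gauge K (zh x t))⁻¹ ^ (j + 2) * h0 (rot t x) * ‖fc x t‖ ^ j := by
    have h5 : (‖fc x t‖⁻¹) ^ (j + 2) * ‖fc x t‖ ^ j = (‖fc x t‖ ^ 2)⁻¹ := by
      rw [inv_pow, pow_add, mul_inv, mul_right_comm, inv_mul_cancel₀ (pow_ne_zero j hn), one_mul]
    rw [hg1, pd_eq hx, mul_inv, mul_pow, div_eq_mul_inv, ← h5]
    ring
  show pd x t • (G (ph x t)) = _
  rw [hG]
  show pd x t • ((((gauge K (ee (ph x t)))⁻¹ ^ (j + 2) : ℝ) : ℂ) * ee (ph x t) ^ j) =
    (((gauge K (zh x t))⁻¹ ^ (j + 2) * h0 (rot t x) : ℝ) : ℂ) * zh x t ^ j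
  rw [Complex.real_smul, ← mul_assoc, ← Complex.ofReal_mul, key, zh_ph x t, mul_pow,
    ← mul_assoc, ← Complex.ofReal_pow, ← Complex.ofReal_mul, ← zh_ph x t]

end Pool.Agent.Helper16.LT
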